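import Mathlib

namespace Pool.Agent.Results.MP_812af1_co.Disproof

open Matrix

/-- Butson matrix `BH(m, n)`: entries are `m`-th roots of unity and `H H* = n I`. -/
def IsBH (m n : ℕ) (H : Matrix (Fin n) (Fin n) ℂ) : Prop :=
  (∀ i j, H i j ^ m = 1) ∧ H * Hᴴ = (n : ℂ) • (1 : Matrix (Fin n) (Fin n) ℂ)

/-- One elementary operation. -/
inductive Step (m : ℕ) {n : ℕ} : Matrix (Fin n) (Fin n) ℂ → Matrix (Fin n) (Fin n) ℂ → Prop
  | permRows (H) (σ : Equiv.Perm (Fin n)) : Step m H (fun i j => H (σ i) j)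
  | permCols (H) (σ : Equiv.Perm (Fin n)) : Step m H (fun i j => H i (σ j))
  | mulRow (H) (r : Fin n) (z : ℂ) : z ^ m = 1 →
      Step m H (fun i j => if i = r then z * H i j else H i j)
  | mulCol (H) (c : Fin n) (z : ℂ) : z ^ m = 1 →
      Step m H (fun i j => if j = c then z * H i j else H i j)

/-- Equivalence: a finite sequence of elementary operations. -/
def Equivalent (m : ℕ) {n : ℕ} : Matrix (Fin n) (Fin n) ℂ → Matrix (Fin n) (Fin n) ℂ → Prop :=
  Relation.ReflTransGen (Step m)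

def Normalised {n : ℕ} (H : Matrix (Fin n) (Fin n) ℂ) : Prop :=
  ∀ i j, (i.val = 0 ∨ j.val = 0) → H i j = 1

/-- In every row but the first, all `m`-th roots of unity occur equally often. -/
def RowBalanced (m : ℕ) {n : ℕ} (H : Matrix (Fin n) (Fin n) ℂ) : Prop :=
  ∀ i : Fin n, i.val ≠ 0 → ∀ h h' : ℂ, h ^ m = 1 → h' ^ m = 1 →
    {j | H i j = h}.ncard = {j | H i j = h'}.ncard

/-- In every column but the first, all `m`-th roots of unity occur equally often. -/
def ColBalanced (m : ℕ) {n : ℕ} (H : Matrix (Fin n) (Fin n) ℂ) : Prop :=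
  ∀ j : Fin n, j.val ≠ 0 → ∀ h h' : ℂ, h ^ m = 1 → h' ^ m = 1 →
    {i | H i j = h}.ncard = {i | H i j = h'}.ncard

def rows : List (List ℕ) :=
  [[0, 0, 0, 0, 0, 0, 0, 0, 0, 0, 0, 0, 0, 0, 0, 0],
   [0, 0, 0, 0, 1, 1, 1, 1, 2, 2, 2, 2, 3, 3, 3, 3],
   [0, 0, 2, 1, 3, 2, 1, 0, 3, 1, 0, 3, 1, 2, 2, 3],
   [0, 3, 1, 2, 3, 0, 2, 1, 3, 0, 2, 1, 3, 1, 2, 0],
   [0, 3, 3, 1, 3, 1, 2, 3, 0, 2, 2, 1, 1, 0, 0, 2],
   [0, 0, 2, 1, 1, 3, 3, 3, 2, 0, 1, 2, 2, 0, 3, 1],
   [0, 3, 0, 2, 1, 2, 0, 2, 3, 1, 3, 0, 2, 3, 1, 1],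
   [0, 2, 1, 3, 0, 3, 0, 2, 3, 2, 1, 2, 1, 1, 0, 3],
   [0, 2, 2, 0, 0, 3, 2, 1, 1, 1, 3, 3, 3, 0, 1, 2],
   [0, 3, 3, 2, 2, 3, 1, 1, 1, 3, 0, 2, 0, 2, 0, 1],
   [0, 1, 2, 3, 2, 0, 3, 0, 2, 2, 3, 1, 1, 3, 1, 0],
   [0, 1, 3, 0, 2, 2, 3, 2, 0, 0, 1, 1, 3, 2, 1, 3],
   [0, 1, 3, 3, 0, 2, 1, 3, 2, 3, 2, 0, 0, 1, 2, 1],
   [0, 2, 1, 2, 1, 1, 3, 0, 0, 3, 1, 3, 0, 3, 2, 2],
   [0, 2, 0, 3, 2, 1, 2, 3, 1, 1, 0, 3, 2, 1, 3, 0],
   [0, 1, 1, 1, 3, 0, 0, 2, 1, 3, 3, 0, 2, 2, 3, 2]]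

def un (k : ℕ) : GaussianInt :=
  if k = 0 then ⟨1, 0⟩ else if k = 1 then ⟨0, 1⟩ else if k = 2 then ⟨-1, 0⟩ else ⟨0, -1⟩

def G (i j : Fin 16) : GaussianInt := un ((rows.getD i.val []).getD j.val 0)

noncomputable def H : Matrix (Fin 16) (Fin 16) ℂ := fun i j => (G i j : ℂ)

lemma G4 : ∀ i j, G i j ^ 4 = 1 := by decide +kernel
lemma Gorth : ∀ i k, ∑ j, G i j * star (G k j) = if i = k then 16 else 0 := by decide +kernel
lemma Gnorm : ∀ i j : Fin 16, (i.val = 0 ∨ j.val = 0) → G i j = 1 := by decide +kernel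
lemma Grow : ∀ i : Fin 16, i.val ≠ 0 → ∀ k : Fin 4,
    (Finset.univ.filter (fun j => G i j = un k.val)).card = 4 := by decide +kernel
lemma Gcol : ∀ j : Fin 16, j.val ≠ 0 → ∀ k : Fin 4,
    (Finset.univ.filter (fun i => G i j = un k.val)).card = 4 := by decide +kernel
lemma root4 (h : ℂ) (hh : h ^ 4 = 1) : ∃ k : Fin 4, h = (un k.val : ℂ) := by
  have : (h - 1) * (h - Complex.I) * (h + 1) * (h + Complex.I) = 0 := by
    have hI : Complex.I ^ 2 = -1 := Complex.I_sq
    linear_combination hh - (h ^ 2 - 1) * hI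
  rcases mul_eq_zero.1 this with h1 | h1
  · rcases mul_eq_zero.1 h1 with h1 | h1
    · rcases mul_eq_zero.1 h1 with h1 | h1
      · refine ⟨0, ?_⟩
        simp [un, GaussianInt.toComplex_def']
        linear_combination h1
      · refine ⟨1, ?_⟩
        simp [un, GaussianInt.toComplex_def']
        linear_combination h1
    · refine ⟨2, ?_⟩
      simp [un, GaussianInt.toComplex_def']
      linear_combination h1
  · refine ⟨3, ?_⟩
    simp [un, GaussianInt.toComplex_def']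
    linear_combination h1

lemma H4 (i j : Fin 16) : H i j ^ 4 = 1 := by
  have := congrArg GaussianInt.toComplex (G4 i j)
  simpa [H] using this

lemma ncard_eq (p : Fin 16 → Prop) (q : Fin 16 → Prop) [DecidablePred q] (h : ∀ j, p j ↔ q j) :
    {j | p j}.ncard = (Finset.univ.filter q).card := by
  rw [← Set.ncard_coe_finset]
  congr 1
  ext j
  simp [h]

def G' (i j : Fin 16) : GaussianInt := G 3 j ^ 3 * G (Equiv.swap 0 3 i) j

noncomputable def H' : Matrix (Fin 16) (Fin 16) ℂ := fun i j => (G' i j : ℂ)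

lemma Gnorm' : ∀ i j : Fin 16, (i.val = 0 ∨ j.val = 0) → G' i j = 1 := by decide +kernel
lemma Gb0 : (Finset.univ.filter (fun j => G' 4 j = un 0)).card = 6 := by decide +kernel
lemma Gb1 : (Finset.univ.filter (fun j => G' 4 j = un 1)).card = 2 := by decide +kernel

lemma cols {m n : ℕ} (M : Matrix (Fin n) (Fin n) ℂ) (b : Fin n → ℂ) (hb : ∀ j, b j ^ m = 1)
    (S : Finset (Fin n)) :
    Equivalent m M (fun i j => if j ∈ S then b j * M i j else M i j) := by
  induction S using Finset.induction_on with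
  | empty =>
    simp only [Finset.notMem_empty, if_false]
    exact Relation.ReflTransGen.refl
  | insert c S hc ih =>
    refine ih.tail ?_
    convert Step.mulCol (m := m) (fun i j => if j ∈ S then b j * M i j else M i j) c (b c) (hb c)
      using 3 with i j
    by_cases h : j = c
    · subst h; simp [hc]
    · simp [h]

theorem result : ∃ (m n : ℕ) (M M' : Matrix (Fin n) (Fin n) ℂ), 1 ≤ m ∧ 2 ≤ n ∧ IsBH m n M ∧
    Equivalent m M M' ∧ Normalised M ∧ Normalised M' ∧ RowBalanced m M ∧ ColBalanced m M ∧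
    ¬ RowBalanced m M' := by
  have hBH : IsBH 4 16 H := by
    refine ⟨H4, ?_⟩
    ext i k
    have := congrArg GaussianInt.toComplex (Gorth i k)
    rw [map_sum] at this
    simp only [map_mul, GaussianInt.toComplex_star] at this
    simp only [Matrix.mul_apply, Matrix.conjTranspose_apply, H, Matrix.smul_apply,
      Matrix.one_apply, Complex.star_def]
    rw [this]
    split_ifs
    · simp [map_ofNat]
    · simp
  refine ⟨4, 16, H, H', by norm_num, by norm_num, hBH, ?_, fun i j hij => ?_, fun i j hij => ?_,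
    ?_, ?_, fun hR => ?_⟩
  · refine Relation.ReflTransGen.head (Step.permRows H (Equiv.swap 0 3)) ?_
    have := cols (m := 4) (fun i j => H (Equiv.swap 0 3 i) j) (fun j => H 3 j ^ 3)
      (fun j => by rw [← pow_mul, mul_comm, pow_mul, H4, one_pow]) Finset.univ
    have e : H' = fun i j => if j ∈ Finset.univ then H 3 j ^ 3 * H (Equiv.swap 0 3 i) j
        else H (Equiv.swap 0 3 i) j := by
      funext i j
      simp [H', G', H]
    rw [e]
    exact this
  · simp [H, Gnorm i j hij]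
  · simp [H', Gnorm' i j hij]
  · intro i hi h h' hh hh'
    obtain ⟨k, rfl⟩ := root4 h hh
    obtain ⟨k', rfl⟩ := root4 h' hh'
    rw [ncard_eq _ (fun j => G i j = un k.val) (fun j => by simp [H]),
      ncard_eq _ (fun j => G i j = un k'.val) (fun j => by simp [H]), Grow i hi k, Grow i hi k']
  · intro j hj h h' hh hh'
    obtain ⟨k, rfl⟩ := root4 h hh
    obtain ⟨k', rfl⟩ := root4 h' hh'
    rw [ncard_eq _ (fun i => G i j = un k.val) (fun i => by simp [H]),
      ncard_eq _ (fun i => G i j = un k'.val) (fun i => by simp [H]), Gcol j hj k, Gcol j hj k']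
  · have u4 : ∀ k : Fin 2, un k.val ^ 4 = 1 := by decide +kernel
    have := hR 4 (by decide) (un 0 : ℂ) (un 1 : ℂ)
      (by simpa using congrArg GaussianInt.toComplex (u4 0))
      (by simpa using congrArg GaussianInt.toComplex (u4 1))
    rw [ncard_eq _ (fun j => G' 4 j = un 0) (fun j => by simp [H']),
      ncard_eq _ (fun j => G' 4 j = un 1) (fun j => by simp [H']), Gb0, Gb1] at this
    omega

end Pool.Agent.Results.MP_812af1_co.Disproof
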